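import Pool.Agent.H119R3.ETComplete

/-!
# The `k`-restricted ET0L hierarchy collapses at level 3

Upper bound `ℓ ≤ 3` for the collapse threshold `ℓ` of the hierarchy of `k`-restricted ET0L
languages: for every `k ≥ 3` the families generated by `k`-restricted and by
`(k + 1)`-restricted ET0L systems coincide.
-/

namespace Pool.Agent.Results.MP_4de4a9_lc.ThresholdAtMostThree

open Pool.Agent.H119R3.ETDefs Pool.Agent.H119R3.ETSim

/-- For every `k ≥ 3`, over every terminal alphabet, the `k`-restricted and the
`(k + 1)`-restricted ET0L systems generate the same languages. -/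
theorem result : ∀ k : ℕ, 3 ≤ k → ∀ T : Type, restrictedFamily k T = restrictedFamily (k + 1) T := by
  intro k hk T
  ext L
  constructor
  · rintro ⟨G, hG, rfl⟩
    exact ⟨G, fun h hh => (hG h hh).trans (Nat.le_succ k), rfl⟩
  · rintro ⟨G, _, rfl⟩
    obtain ⟨G', hG', hL⟩ := three_restricted G
    exact ⟨G', fun h hh => (hG' h hh).trans hk, hL⟩

end Pool.Agent.Results.MP_4de4a9_lc.ThresholdAtMostThree
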